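import Pool.Agent.Helper15.MT.Fam

/-! Project MT, III: links without a reflection, over an algebraically closed field. -/

set_option autoImplicit false
set_option linter.unusedSectionVars false
set_option linter.unusedSimpArgs false
set_option linter.unusedVariables false

namespace Pool.Agent.Helper90.MC

open Module Pool.Agent.Helper75.MT Pool.Agent.Helper15.MT

section pair

variable {L V V' : Type*} [Field L] [CharZero L] [AddCommGroup V] [Module L V]
  [FiniteDimensional L V] [AddCommGroup V'] [Module L V'] [FiniteDimensional L V']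

/-- Two blocks of a Lie algebra over an algebraically closed field: they are isomorphic or dual, up to
scalars, if the first block is scalar where the second is. -/
theorem pair_ac [IsAlgClosed L] (p : Submodule L (Module.End L V × Module.End L V'))
    (hl : ∀ x ∈ p, ∀ y ∈ p, x * y - y * x ∈ p) (h10 : (1, 0) ∈ p) (h01 : (0, 1) ∈ p)
    (h1 : ∀ x, ∃ y, (x, y) ∈ p) (h2 : ∀ y, ∃ x, (x, y) ∈ p)
    (hsep : ∀ x ∈ p, (∃ c : L, x.2 = c • 1) → ∃ c : L, x.1 = c • 1)
    (hdim : 2 ≤ Module.finrank L V) :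
    (∃ T : V ≃ₗ[L] V', ∀ x ∈ p, ∃ c : L,
      x.2 ∘ₗ T.toLinearMap - T.toLinearMap ∘ₗ x.1 = c • T.toLinearMap) ∨
    (∃ T : V ≃ₗ[L] Module.Dual L V', ∀ x ∈ p, ∃ c : L,
      x.2.dualMap ∘ₗ T.toLinearMap + T.toLinearMap ∘ₗ x.1 = c • T.toLinearMap) := by
  have hVn : Nontrivial V := Module.nontrivial_of_finrank_pos (R := L) (by omega)
  obtain ⟨v, φ, hv⟩ : ∃ (v : V) (φ : Module.Dual L V), φ v = 1 := by
    obtain ⟨v, hv⟩ := exists_ne (0 : V)
    obtain ⟨φ, hφ⟩ : ∃ φ : Module.Dual L V, φ v ≠ 0 := by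
      by_contra hcon
      push Not at hcon
      exact hv ((Module.forall_dual_apply_eq_zero_iff L v).1 hcon)
    exact ⟨v, (φ v)⁻¹ • φ, by rw [LinearMap.smul_apply, smul_eq_mul, inv_mul_cancel₀ hφ]⟩
  obtain ⟨h', hh⟩ := h1 (φ.smulRight v)
  have hd : ∃ z ≠ 0, φ z = 0 := by
    by_contra! hno
    have hinj : Function.Injective φ := by
      rw [← LinearMap.ker_eq_bot, LinearMap.ker_eq_bot']
      intro z hz
      by_contra h0
      exact hno z h0 hz
    have := LinearMap.finrank_le_finrank_of_injective hinj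
    rw [Module.finrank_self] at this
    omega
  have hv0 : v ≠ 0 := by
    rintro rfl
    rw [map_zero] at hv
    exact zero_ne_one hv
  obtain ⟨e, he⟩ : ∃ e : Module.End L V, e = φ.smulRight v := ⟨_, rfl⟩
  have hee : e * e = e := by rw [he]; exact rk_idem hv
  have hens : ∀ c : L, e ≠ c • 1 := by
    intro c hc
    rw [he] at hc
    exact hv0 (rk_scalar hv hd hc)
  rw [← he] at hh
  -- the second block is scalar where the first is zero
  have hs' : ∀ x, (x, (0 : Module.End L V')) ∈ p → ∃ c : L, x = c • 1 := fun x hx =>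
    hsep _ hx ⟨0, by simp⟩
  have hs : ∀ y, ((0 : Module.End L V), y) ∈ p → ∃ c : L, y = c • 1 := by
    intro y hy
    by_contra! hno
    have htop : p.comap (LinearMap.inr L (Module.End L V) (Module.End L V')) = ⊤ := by
      refine ideal_top _ h01 ?_ y hy hno
      intro z hz w
      obtain ⟨x, hx⟩ := h2 w
      have h3 := hl _ hz _ hx
      change (0, z * w - w * z) ∈ p
      convert h3 using 1
      refine Prod.ext ?_ rfl
      simp
    obtain ⟨y', hy'⟩ := h1 e
    have h3 : y' ∈ p.comap (LinearMap.inr L (Module.End L V) (Module.End L V')) := by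
      rw [htop]
      trivial
    have h4 := p.sub_mem hy' h3
    have h5 : (e, (0 : Module.End L V')) ∈ p := by
      convert h4 using 1
      refine Prod.ext ?_ ?_
      · simp
      · simp
    obtain ⟨c, hc⟩ := hs' _ h5
    exact hens c hc
  have hnt : Nontrivial V' := by
    by_contra hno
    rw [not_nontrivial_iff_subsingleton] at hno
    obtain ⟨c, hc⟩ := hsep _ hh ⟨0, Subsingleton.elim _ _⟩
    exact hens c hc
  -- the third power of `ad h'`
  have had : ∀ y : Module.End L V', h' * (h' * (h' * y - y * h') - (h' * y - y * h') * h') -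
      (h' * (h' * y - y * h') - (h' * y - y * h') * h') * h' = h' * y - y * h' := by
    intro y
    obtain ⟨x, hx⟩ := h2 y
    have m1 := hl _ hh _ hx
    have m2 := hl _ hh _ m1
    have m3 := hl _ hh _ m2
    have m4 := p.sub_mem m3 m1
    have e1 : e * (e * (e * x - x * e) - (e * x - x * e) * e) -
        (e * (e * x - x * e) - (e * x - x * e) * e) * e - (e * x - x * e) = 0 := by
      have a1 : e * (e * x) = e * x := by rw [← mul_assoc, hee]
      have a2 : x * e * e = x * e := by rw [mul_assoc, hee]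
      have a3 : e * (x * e) = e * x * e := (mul_assoc _ _ _).symm
      have a4 : e * (e * x * e) = e * x * e := by rw [← mul_assoc, a1]
      have a5 : e * x * e * e = e * x * e := by rw [mul_assoc (e * x), hee]
      simp only [mul_sub, sub_mul, a1, a2, a3, a4, a5]
      abel
    have m5 : ((0 : Module.End L V), h' * (h' * (h' * y - y * h') - (h' * y - y * h') * h') -
        (h' * (h' * y - y * h') - (h' * y - y * h') * h') * h' - (h' * y - y * h')) ∈ p := by
      convert m4 using 1
      exact Prod.ext e1.symm rfl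
    obtain ⟨c, hc⟩ := hs _ m5
    have htr := congrArg (LinearMap.trace L V') hc
    rw [map_sub, map_sub, map_sub, LinearMap.trace_mul_comm, sub_self,
      LinearMap.trace_mul_comm L h' y, sub_self, sub_zero, map_smul, LinearMap.trace_one,
      smul_eq_mul] at htr
    have hc0 : c = 0 := by
      have h3 : (Module.finrank L V' : L) ≠ 0 := by
        have := Module.finrank_pos (R := L) (M := V')
        exact_mod_cast this.ne'
      exact (mul_eq_zero.1 htr.symm).resolve_right h3
    rw [hc0, zero_smul] at hc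
    exact sub_eq_zero.1 hc
  obtain ⟨μ, w, hw0, hw⟩ : ∃ (μ : L) (w : V'), w ≠ 0 ∧ h' w = μ • w := by
    obtain ⟨μ, hμ⟩ := Module.End.exists_eigenvalue h'
    obtain ⟨w, hw⟩ := hμ.exists_hasEigenvector
    exact ⟨μ, w, hw.2, Module.End.mem_eigenspace_iff.1 hw.1⟩
  obtain ⟨q, c, hq, hqc⟩ := idem_of had hw0 hw
  have hE : (e, q) ∈ p := by
    have h3 := p.sub_mem hh (p.smul_mem c h01)
    convert h3 using 1
    refine Prod.ext ?_ ?_
    · simp
    · simp [hqc]
  have hq0 : q ≠ 0 := by
    rintro rfl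
    obtain ⟨c, hc⟩ := hs' _ hE
    exact hens c hc
  have hq1 : q ≠ 1 := by
    rintro rfl
    obtain ⟨c, hc⟩ := hsep _ hE ⟨1, (one_smul _ _).symm⟩
    exact hens c hc
  -- rank or corank one
  have hrk : IsRk q ∨ IsRk (1 - q) := by
    refine isRk_of hq hq0 hq1 ?_
    intro a b
    obtain ⟨x, hx⟩ := h2 a
    obtain ⟨y, hy⟩ := h2 b
    have hEE : (e, q) * (e, q) = ((e, q) : Module.End L V × Module.End L V') := Prod.ext hee hq
    have m1 := (part_mem p hl hE hEE hx).1
    have m2 := (part_mem p hl hE hEE hy).2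
    obtain ⟨X, hX⟩ : ∃ X : Module.End L V × Module.End L V', X = (e, q) * (x, a) * (1 - (e, q)) :=
      ⟨_, rfl⟩
    obtain ⟨Y, hY⟩ : ∃ Y : Module.End L V × Module.End L V', Y = (1 - (e, q)) * (y, b) * (e, q) :=
      ⟨_, rfl⟩
    rw [← hX] at m1
    rw [← hY] at m2
    have m3 := hl _ (hl _ m1 _ m2) _ m1
    have hEE' : (1 - (e, q)) * (e, q) = (0 : Module.End L V × Module.End L V') := by
      rw [sub_mul, hEE, one_mul, sub_self]
    have hXX : X * X = 0 := by
      rw [hX]
      have : (e, q) * (x, a) * (1 - (e, q)) * ((e, q) * (x, a) * (1 - (e, q))) =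
          (e, q) * (x, a) * ((1 - (e, q)) * (e, q)) * ((x, a) * (1 - (e, q))) := by
        simp only [mul_assoc]
      rw [this, hEE', mul_zero, zero_mul]
    have e3 : (X * Y - Y * X) * X - X * (X * Y - Y * X) = (2 : L) • (X * Y * X) := by
      have a1 : Y * X * X = 0 := by rw [mul_assoc, hXX, mul_zero]
      have a2 : X * (X * Y) = 0 := by rw [← mul_assoc, hXX, zero_mul]
      rw [sub_mul, mul_sub, a1, a2, ← mul_assoc, two_smul]
      abel
    rw [e3] at m3
    have m4 := p.smul_mem (2⁻¹ : L) m3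
    rw [smul_smul, inv_mul_cancel₀ two_ne_zero, one_smul] at m4
    obtain ⟨t, ht⟩ : ∃ t : L, (X * Y * X).1 = t • X.1 := by
      refine ⟨φ ((x * (1 - e) * ((1 - e) * y)) v), ?_⟩
      have hX1 : X.1 = e * x * (1 - e) := by rw [hX]; rfl
      have hY1 : Y.1 = (1 - e) * y * e := by rw [hY]; rfl
      have hrk : ∀ z : Module.End L V, e * z * e = φ (z v) • e := by
        intro z
        rw [he]
        ext w
        simp [smul_smul, mul_comm]
      have e4 : (X * Y * X).1 = e * (x * (1 - e) * ((1 - e) * y)) * e * (x * (1 - e)) := by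
        rw [Prod.fst_mul, Prod.fst_mul, hX1, hY1]
        have : e * x * (1 - e) * ((1 - e) * y * e) * (e * x * (1 - e)) =
            e * (x * (1 - e) * ((1 - e) * y)) * (e * e) * (x * (1 - e)) := by
          simp only [mul_assoc]
        rw [this, hee]
      rw [e4, hrk, hX1, smul_mul_assoc, mul_assoc e x (1 - e)]
    have m5 := p.sub_mem m4 (p.smul_mem t m1)
    have m6 : ((0 : Module.End L V), (X * Y * X).2 - t • X.2) ∈ p := by
      convert m5 using 1
      refine Prod.ext ?_ rfl
      rw [Prod.fst_sub, ht, Prod.smul_fst, sub_self]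
    obtain ⟨c', hc'⟩ := hs _ m6
    have hX2 : X.2 = q * a * (1 - q) := by rw [hX]; rfl
    have hY2 : Y.2 = (1 - q) * b * q := by rw [hY]; rfl
    have hqq : (1 - q) * q = 0 := by rw [sub_mul, hq, one_mul, sub_self]
    have hXq : (1 - q) * X.2 = 0 := by
      rw [hX2, ← mul_assoc, ← mul_assoc, hqq, zero_mul, zero_mul]
    have hc0 : c' = 0 := by
      have h3 : (1 - q) * ((X * Y * X).2 - t • X.2) = (1 - q) * (c' • 1) := by rw [hc']
      rw [mul_sub, mul_smul_comm, mul_smul_comm, mul_one, hXq, smul_zero, sub_zero, Prod.snd_mul,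
        Prod.snd_mul, ← mul_assoc, ← mul_assoc, hXq, zero_mul, zero_mul] at h3
      exact (smul_eq_zero.1 h3.symm).resolve_right (sub_ne_zero.2 hq1.symm)
    refine ⟨t, ?_⟩
    rw [hc0, zero_smul] at hc'
    have h3 := sub_eq_zero.1 hc'
    rw [Prod.snd_mul, Prod.snd_mul, hX2, hY2] at h3
    exact h3
  rcases hrk with ⟨v', φ', hv', hqr⟩ | ⟨v', φ', hv', hqr⟩
  · left
    refine caseA p hl h1 h2 hs hs' hv hv' ?_ hd ?_
    · rw [← he, ← hqr]
      exact hE
    · by_contra! hno
      apply hq1
      ext z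
      have h3 : z - φ' z • v' = 0 := by
        by_contra h0
        exact hno _ h0 (by simp [hv'])
      rw [hqr, LinearMap.smulRight_apply, Module.End.one_apply]
      exact (sub_eq_zero.1 h3).symm
  · right
    have hq' : (e, q - 1) ∈ p := by
      have h3 := p.sub_mem hE h01
      convert h3 using 1
      refine Prod.ext ?_ rfl
      simp
    obtain ⟨T, hT⟩ := caseA (v' := φ') (φ' := Module.Dual.eval L V' v') (p.map (dm L V V')) (by
        rintro _ ⟨a, ha, rfl⟩ _ ⟨b, hb, rfl⟩
        rw [dm_comm]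
        exact ⟨_, hl _ ha _ hb, rfl⟩) (by
        intro x
        obtain ⟨y, hy⟩ := h1 x
        exact ⟨_, ⟨_, hy, rfl⟩⟩) (by
        intro y
        obtain ⟨y', hy'⟩ := dual_surj (-y)
        obtain ⟨x, hx⟩ := h2 y'
        refine ⟨x, ⟨_, hx, ?_⟩⟩
        refine Prod.ext rfl ?_
        change -(y'.dualMap : Module.End L (Module.Dual L V')) = y
        rw [hy']
        exact neg_neg y) (by
        rintro y ⟨⟨a, b⟩, ha, hab⟩
        have h3 : a = 0 := congrArg Prod.fst hab
        have h4 : -(b.dualMap : Module.End L (Module.Dual L V')) = y := congrArg Prod.snd hab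
        subst h3
        obtain ⟨c, hc⟩ := hs _ ha
        refine ⟨-c, ?_⟩
        rw [← h4, hc]
        ext f z
        simp) (by
        rintro x ⟨⟨a, b⟩, ha, hab⟩
        have h3 : a = x := congrArg Prod.fst hab
        have h4 : -(b.dualMap : Module.End L (Module.Dual L V')) = 0 := congrArg Prod.snd hab
        have h5 : b = 0 := by
          refine dual_inj ?_
          ext f z
          have h6 : -(f (b z)) = 0 := LinearMap.congr_fun (LinearMap.congr_fun h4 f) z
          exact neg_eq_zero.1 h6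
        subst h5
        subst h3
        exact hs' _ ha) hv hv' (by
        refine ⟨_, hq', ?_⟩
        refine Prod.ext he ?_
        change -((q - 1).dualMap : Module.End L (Module.Dual L V')) = _
        rw [← dual_rk, ← hqr]
        ext f z
        simp) hd (by
        by_contra! hno
        apply hq0
        have h3 : ∀ z, φ' z • v' = z := by
          intro z
          rw [← sub_eq_zero]
          refine (Module.forall_dual_apply_eq_zero_iff L _).1 fun f => ?_
          have h4 : f - f v' • φ' = 0 := by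
            by_contra h0
            exact hno _ h0 (by simp [hv'])
          have h5 : f z - f v' * φ' z = 0 := LinearMap.congr_fun h4 z
          rw [map_sub, map_smul, smul_eq_mul, ← neg_sub, mul_comm, h5, neg_zero]
        have h4 : (1 : Module.End L V') - q = 1 := by
          rw [hqr]
          ext z
          exact h3 z
        rw [sub_eq_self] at h4
        exact h4)
    refine ⟨T, fun x hx => ?_⟩
    obtain ⟨c, hc⟩ := hT _ ⟨x, hx, rfl⟩
    refine ⟨-c, ?_⟩
    ext z w
    have h3 : -(T z (x.2 w)) - T (x.1 z) w = c * T z w :=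
      LinearMap.congr_fun (LinearMap.congr_fun hc z) w
    change T z (x.2 w) + T (x.1 z) w = -c * T z w
    linear_combination -h3

end pair

section fam

variable {L ι : Type} [Field L] [CharZero L] [IsAlgClosed L] {V : ι → Type}
  [∀ i, AddCommGroup (V i)] [∀ i, Module L (V i)] [∀ i, FiniteDimensional L (V i)]

/-- **Links**, without a reflection. -/
theorem fam_link_ac (𝔳 : Submodule L (∀ i, End L (V i)))
    (hlie : ∀ x ∈ 𝔳, ∀ y ∈ 𝔳, x * y - y * x ∈ 𝔳)
    (hfull : ∀ i, 2 ≤ finrank L (V i) → ∀ y : End L (V i), ∃ x ∈ 𝔳, ∃ c : L, x i + c • 1 = y)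
    (i j : ι) (hi : 2 ≤ finrank L (V i))
    (hsep : ∀ x ∈ 𝔳, (∃ c : L, x j = c • 1) → ∃ c : L, x i = c • 1) :
    (∃ T : V i ≃ₗ[L] V j, ∀ x ∈ 𝔳, ∃ c : L,
      x j ∘ₗ T.toLinearMap - T.toLinearMap ∘ₗ x i = c • T.toLinearMap) ∨
    (∃ T : V i ≃ₗ[L] Dual L (V j), ∀ x ∈ 𝔳, ∃ c : L,
      (x j).dualMap ∘ₗ T.toLinearMap + T.toLinearMap ∘ₗ x i = c • T.toLinearMap) := by
  have hj : 2 ≤ finrank L (V j) := by
    by_contra hC
    obtain ⟨y, hy⟩ := exists_not_scalar hi
    obtain ⟨x, hx, c, rfl⟩ := hfull i hi y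
    obtain ⟨d, hd⟩ := hsep x hx (scalar_of_small (by omega) _)
    exact hy (d + c) (by rw [hd, add_smul])
  have hp : ∀ x ∈ 𝔳, (x i, x j) ∈ comp2 𝔳 i j := fun x hx =>
    ⟨x, hx, 0, 0, by rw [zero_smul, zero_smul, add_zero, add_zero]⟩
  have hres := pair_ac (comp2 𝔳 i j) (comp2_lie hlie i j)
    ⟨0, 𝔳.zero_mem, 1, 0, by
      rw [Pi.zero_apply, Pi.zero_apply, zero_add, zero_add, one_smul, zero_smul]⟩
    ⟨0, 𝔳.zero_mem, 0, 1, by
      rw [Pi.zero_apply, Pi.zero_apply, zero_add, zero_add, one_smul, zero_smul]⟩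
    (fun y => by
      obtain ⟨x, hx, c, rfl⟩ := hfull i hi y
      exact ⟨x j, x, hx, c, 0, by rw [zero_smul, add_zero]⟩)
    (fun y => by
      obtain ⟨x, hx, c, rfl⟩ := hfull j hj y
      exact ⟨x i, x, hx, 0, c, by rw [zero_smul, add_zero]⟩)
    (by
      rintro _ ⟨x, hx, c, d, rfl⟩ ⟨k, hk⟩
      obtain ⟨l, hl⟩ := hsep x hx ⟨k - d, by
        have hk' : x j + d • 1 = k • 1 := hk
        rw [sub_smul, ← hk']; abel⟩
      exact ⟨l + c, by
        show x i + c • 1 = _
        rw [hl, add_smul]⟩) hi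
  rcases hres with ⟨T, hT⟩ | ⟨T, hT⟩
  · exact Or.inl ⟨T, fun x hx => hT (x i, x j) (hp x hx)⟩
  · exact Or.inr ⟨T, fun x hx => hT (x i, x j) (hp x hx)⟩

end fam

end Pool.Agent.Helper90.MC
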